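import Pool.Agent.helper94.PL.Spec

/-!
# Module RA1 (project pl2, MP_af9036_an)
-/

set_option autoImplicit false

open Complex Metric Set Filter Topology MeasureTheory MPS
open Pool.Agent.helper16.Multibrot

noncomputable section

namespace PLY

/-- The local inverse of `v / E v`. -/
theorem RA1_loc (E : ℂ → ℂ) (h1 : DifferentiableOn ℂ E (ball 0 1)) (h0 : E 0 = 1) :
    ∃ Y : ℂ → ℂ, Tendsto (fun x => x⁻¹ * Y x) (𝓝[≠] 0) (𝓝 1) ∧
      ∀ᶠ x in 𝓝 (0 : ℂ), Y x / E (Y x) = x := by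
  have hA : AnalyticAt ℂ E 0 := h1.analyticAt (ball_mem_nhds 0 one_pos)
  have hsE : HasStrictDerivAt E (deriv E 0) 0 := hA.hasStrictDerivAt
  have hX : HasStrictDerivAt (fun v : ℂ => v / E v) 1 0 := by
    have := (hasStrictDerivAt_id (0 : ℂ)).div hsE (by rw [h0]; exact one_ne_zero)
    have e : (id / E : ℂ → ℂ) = fun v : ℂ => v / E v := by funext v; simp
    rw [e] at this
    simpa [h0] using this
  set hF := hX.hasStrictFDerivAt_equiv one_ne_zero with hFd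
  set Y : ℂ → ℂ := hX.localInverse (fun v : ℂ => v / E v) 1 0 one_ne_zero with hY
  have hX0 : (fun v : ℂ => v / E v) 0 = 0 := by simp
  have hr : ∀ᶠ x in 𝓝 ((fun v : ℂ => v / E v) 0), (fun v : ℂ => v / E v) (Y x) = x :=
    hF.eventually_right_inverse
  have hd : HasStrictDerivAt Y 1⁻¹ ((fun v : ℂ => v / E v) 0) :=
    hX.to_localInverse one_ne_zero
  have hY0 : Y 0 = 0 := by
    have h7 : Y ((fun v : ℂ => v / E v) 0) = 0 := hF.localInverse_apply_image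
    rw [hX0] at h7
    exact h7
  rw [hX0] at hr hd
  refine ⟨Y, ?_, hr⟩
  have h2 := hasDerivAt_iff_tendsto_slope.1 hd.hasDerivAt
  rw [inv_one] at h2
  refine h2.congr fun x => ?_
  rw [slope_def_module, hY0, sub_zero, sub_zero, smul_eq_mul]

theorem RA1 (h1 : BIT_stmt) (h2 : BIN_stmt) (h3 : UON_stmt) : RA1_stmt := by
  intro n m c E θ γ hn hc hE hm hFx hfe hlim
  obtain ⟨Y, hYlim, hYinv⟩ := RA1_loc E hE.hol hE.one
  set φ : ℝ → ℂ := fun t => Complex.exp ((t : ℂ) + 2 * Real.pi * θ * I) with hφ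
  set ψ : ℝ → ℂ := fun t => Complex.exp (-((t : ℂ) + 2 * Real.pi * θ * I)) with hψ
  have hφψ : ∀ t, φ t * ψ t = 1 := fun t => by
    simp only [hφ, hψ]; rw [← Complex.exp_add, add_neg_cancel, Complex.exp_zero]
  have hφn : ∀ t, ‖φ t‖ = Real.exp t := fun t => by
    simp only [hφ]; rw [Complex.norm_exp]; congr 1; simp
  have hψn : ∀ t, ‖ψ t‖ = Real.exp (-t) := fun t => by
    simp only [hψ]; rw [Complex.norm_exp]; congr 1; simp
  have hψ0 : Tendsto ψ atTop (𝓝 0) := by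
    rw [tendsto_zero_iff_norm_tendsto_zero]
    simp only [hψn]
    exact Real.tendsto_exp_neg_atTop_nhds_zero
  -- `γ t ≠ 0` for large `t`
  have hγ0 : ∀ᶠ t in atTop, γ t ≠ 0 := by
    have := hlim.eventually_ne one_ne_zero
    filter_upwards [this] with t ht h
    apply ht
    rw [h, zero_mul]
  -- `x t = (γ t)⁻¹` tends to `0`
  have hx : Tendsto (fun t => (γ t)⁻¹) atTop (𝓝[≠] 0) := by
    rw [tendsto_nhdsWithin_iff]
    refine ⟨?_, ?_⟩
    · have h4 : Tendsto (fun t => ψ t * (γ t * ψ t)⁻¹) atTop (𝓝 (0 * 1⁻¹)) :=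
        hψ0.mul (hlim.inv₀ one_ne_zero)
      rw [zero_mul] at h4
      refine h4.congr fun t => ?_
      have : ψ t ≠ 0 := Complex.exp_ne_zero _
      rw [mul_inv, mul_comm (γ t)⁻¹, ← mul_assoc, mul_inv_cancel₀ this, one_mul]
    · filter_upwards [hγ0] with t ht
      exact inv_ne_zero ht
  have hx0 : Tendsto (fun t => (γ t)⁻¹) atTop (𝓝 0) := hx.mono_right nhdsWithin_le_nhds
  set w : ℝ → ℂ := fun t => (Y (γ t)⁻¹)⁻¹ with hw
  set u : ℝ → ℂ := fun t => w t * ψ t with hu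
  have hul : Tendsto u atTop (𝓝 1) := by
    have h5 : Tendsto (fun t => (((γ t)⁻¹)⁻¹ * Y (γ t)⁻¹)⁻¹ * (γ t * ψ t)) atTop (𝓝 (1⁻¹ * 1)) :=
      ((hYlim.comp hx).inv₀ one_ne_zero).mul hlim
    rw [inv_one, one_mul] at h5
    refine h5.congr' ?_
    filter_upwards [hγ0] with t ht
    simp only [hu, hw]
    rw [mul_inv, inv_inv]
    rw [show (γ t)⁻¹ * (Y (γ t)⁻¹)⁻¹ * (γ t * ψ t) = (γ t)⁻¹ * γ t * ((Y (γ t)⁻¹)⁻¹ * ψ t) by ring,
      inv_mul_cancel₀ ht, one_mul]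
  have hwu : ∀ t, w t = u t * φ t := fun t => by
    simp only [hu]
    rw [mul_assoc, mul_comm (ψ t), hφψ, mul_one]
  have hwn : ∀ᶠ t in atTop, 1 < ‖w t‖ := by
    have h6 : Tendsto (fun t => ‖u t‖ * Real.exp t) atTop atTop :=
      (hul.norm.pos_mul_atTop (by norm_num) Real.tendsto_exp_atTop)
    filter_upwards [h6.eventually_gt_atTop 1] with t ht
    rw [hwu t, norm_mul, hφn]
    exact ht
  have hchi : ∀ᶠ t in atTop, chi E (w t) = γ t := by
    filter_upwards [hx0.eventually hYinv, hγ0] with t ht ht0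
    simp only [chi, hw, inv_inv]
    have : (Y (γ t)⁻¹)⁻¹ * E (Y (γ t)⁻¹) = (Y (γ t)⁻¹ / E (Y (γ t)⁻¹))⁻¹ := by
      rw [inv_div, div_eq_mul_inv, mul_comm]
    rw [this, ht, inv_inv]
  obtain ⟨T₁, hT₁⟩ := eventually_atTop.1 ((hwn.and hchi).and (eventually_ge_atTop (1 : ℝ)))
  have hΛ2 : 2 ≤ n ^ m := by
    calc 2 = 2 ^ 1 := by norm_num
      _ ≤ n ^ 1 := by simpa using hn
      _ ≤ n ^ m := Nat.pow_le_pow_right (by omega) hm
  have hΛr : (1 : ℝ) ≤ ((n ^ m : ℕ) : ℝ) := by exact_mod_cast (by omega : 1 ≤ n ^ m)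
  have hT₁t : ∀ t, T₁ ≤ t → 1 ≤ t := fun t ht => (hT₁ t ht).2
  have hΛt : ∀ t, T₁ ≤ t → T₁ ≤ ((n ^ m : ℕ) : ℝ) * t := fun t ht => by
    have := hT₁t t ht
    nlinarith
  have hfun : ∀ t, T₁ ≤ t → w (((n ^ m : ℕ) : ℝ) * t) = w t ^ (n ^ m) := by
    intro t ht
    have h7 := hT₁ t ht
    have h8 := hT₁ _ (hΛt t ht)
    apply h2 n c E hn hc hE (show 1 < ‖w (((n ^ m : ℕ) : ℝ) * t)‖ from h8.1.1)
    · show 1 < ‖w t ^ (n ^ m)‖
      rw [norm_pow]
      exact one_lt_pow₀ h7.1.1 (by omega)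
    · rw [h8.1.2, ← (h1 n c E hn hE (w t) h7.1.1).1 m, h7.1.2, hfe t (by linarith [h7.2])]
      push_cast
      rfl
  have hufun : ∀ t, T₁ ≤ t → u (((n ^ m : ℕ) : ℝ) * t) = u t ^ (n ^ m) := by
    intro t ht
    obtain ⟨j, hj⟩ := hFx
    simp only [hu]
    rw [hfun t ht, mul_pow]
    congr 1
    simp only [hψ]
    rw [← Complex.exp_nat_mul]
    rw [Complex.exp_eq_exp_iff_exists_int]
    refine ⟨j, ?_⟩
    have hjc : (((n : ℂ) ^ m - 1) * (θ : ℂ)) = (j : ℂ) := by exact_mod_cast congrArg ((↑) : ℝ → ℂ) hj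
    push_cast
    rw [← hjc]
    ring
  obtain ⟨T, hT, hT'⟩ := h3 (n ^ m) u hΛ2 hul ⟨T₁, hufun⟩
  refine ⟨max T T₁, lt_max_of_lt_left hT, fun t ht => ?_⟩
  have h9 := hT' t ((le_max_left _ _).trans ht)
  have h10 := hT₁ t ((le_max_right _ _).trans ht)
  rw [← h10.1.2, hwu t, h9, one_mul]
  rfl

end PLY
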